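import Mathlib

/-!
# MP_0ebc21_nt

For every `a ≥ 1` the coefficients of `1 / Ψ(-q^a, q)` grow exponentially.
-/

namespace Pool.Agent.Results.MP_0ebc21_nt.ExponentialGrowth

open Filter Topology

/-- The exponent `a * binom(n+1,2) + binom(n,2)`. -/
def expo (a : ℕ) (n : ℤ) : ℤ := a * (n * (n + 1) / 2) + n * (n - 1) / 2

/-- The sign of the `n`-th term: `(-1)^binom(n+1,2)` for `n ≥ 0` and its negative for `n < 0`. -/
def sg (n : ℤ) : ℤ := (if 0 ≤ n then 1 else -1) * ((n * (n + 1) / 2).negOnePow : ℤ)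

/-- The formal power series `Ψ(-q^a, q)`. -/
noncomputable def Psi (a : ℕ) : PowerSeries ℤ :=
  PowerSeries.mk fun N => ∑ᶠ n : ℤ, if expo a n = (N : ℤ) then sg n else 0

/-- The coefficients of `1 / Ψ(-q^a, q)`. -/
noncomputable def c (a : ℕ) (n : ℕ) : ℤ :=
  PowerSeries.coeff n (PowerSeries.invOfUnit (Psi a) 1)

theorem two_tri (n : ℤ) : 2 * (n * (n + 1) / 2) = n * (n + 1) :=
  Int.mul_ediv_cancel' (Int.even_mul_succ_self n).two_dvd

theorem two_tri' (n : ℤ) : 2 * (n * (n - 1) / 2) = n * (n - 1) :=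
  Int.mul_ediv_cancel' (Int.even_mul_pred_self n).two_dvd

theorem tri_nonneg (n : ℤ) : 0 ≤ n * (n + 1) / 2 := by
  have h := two_tri n
  have : 0 ≤ n * (n + 1) := by
    rcases le_or_gt 0 n with h | h
    · positivity
    · nlinarith
  omega

theorem expo_ge {a : ℕ} (ha : 1 ≤ a) (n : ℤ) : n ^ 2 ≤ expo a n := by
  have h1 := two_tri n
  have h2 := two_tri' n
  have h3 := tri_nonneg n
  have h4 : (1 : ℤ) ≤ a := by exact_mod_cast ha
  unfold expo
  nlinarith

theorem expo_nonneg {a : ℕ} (ha : 1 ≤ a) (n : ℤ) : 0 ≤ expo a n :=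
  (sq_nonneg n).trans (expo_ge ha n)

/-- the exponent as a natural number -/
def E (a : ℕ) (n : ℤ) : ℕ := (expo a n).toNat

theorem E_cast {a : ℕ} (ha : 1 ≤ a) (n : ℤ) : (E a n : ℤ) = expo a n :=
  Int.toNat_of_nonneg (expo_nonneg ha n)

theorem natAbs_le_E {a : ℕ} (ha : 1 ≤ a) (n : ℤ) : n.natAbs ≤ E a n := by
  have h1 := expo_ge ha n
  have h2 := E_cast ha n
  have h3 : (n.natAbs : ℤ) ≤ n ^ 2 := by
    rcases eq_or_ne n 0 with rfl | h
    · simp
    · rw [← Int.natAbs_sq n]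
      have : 1 ≤ n.natAbs := Int.natAbs_pos.mpr h
      have : (1 : ℤ) ≤ (n.natAbs : ℤ) := by exact_mod_cast this
      nlinarith
  have : (n.natAbs : ℤ) ≤ (E a n : ℤ) := by linarith
  exact_mod_cast this

theorem abs_sg (n : ℤ) : |(sg n : ℝ)| = 1 := by
  have h : ((n * (n + 1) / 2).negOnePow : ℤ) = 1 ∨ ((n * (n + 1) / 2).negOnePow : ℤ) = -1 := by
    rcases Int.units_eq_one_or ((n * (n + 1) / 2).negOnePow) with h | h <;> simp [h]
  unfold sg
  split_ifs <;> rcases h with h | h <;> rw [h] <;> simp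

/-- the `n`-th term at a real point -/
noncomputable def term (a : ℕ) (x : ℝ) (n : ℤ) : ℝ := (sg n : ℝ) * x ^ E a n

theorem summable_geo {x : ℝ} (h0 : 0 ≤ x) (h1 : x < 1) : Summable fun n : ℤ => x ^ n.natAbs := by
  have hs := summable_geometric_of_lt_one h0 h1
  refine Summable.of_nat_of_neg ?_ ?_
  · simpa using hs
  · simpa using hs

theorem norm_term_le {a : ℕ} (ha : 1 ≤ a) {x y : ℝ} (h0 : 0 ≤ x) (hxy : x ≤ y) (h1 : y < 1) (n : ℤ) :
    ‖term a x n‖ ≤ y ^ n.natAbs := by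
  unfold term
  rw [norm_mul, Real.norm_eq_abs, abs_sg, one_mul, norm_pow, Real.norm_eq_abs, abs_of_nonneg h0]
  calc x ^ E a n ≤ y ^ E a n := pow_le_pow_left₀ h0 hxy _
    _ ≤ y ^ n.natAbs := pow_le_pow_of_le_one (h0.trans hxy) h1.le (natAbs_le_E ha n)

theorem summable_term {a : ℕ} (ha : 1 ≤ a) {x : ℝ} (h0 : 0 ≤ x) (h1 : x < 1) :
    Summable (term a x) :=
  Summable.of_norm_bounded (summable_geo h0 h1) (norm_term_le ha h0 le_rfl h1)

/-- the function `Ψ(-x^a, x)` -/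
noncomputable def F (a : ℕ) (x : ℝ) : ℝ := ∑' n, term a x n

theorem fiber_finite {a : ℕ} (ha : 1 ≤ a) (N : ℕ) : (E a ⁻¹' {N}).Finite := by
  refine (Set.finite_Icc (-(N : ℤ)) N).subset fun n hn => ?_
  have h : E a n = N := hn
  have := natAbs_le_E ha n
  rw [h] at this
  constructor <;> omega

theorem coeff_Psi {a : ℕ} (ha : 1 ≤ a) (N : ℕ) :
    (PowerSeries.coeff N (Psi a) : ℤ) = ∑ n ∈ (fiber_finite ha N).toFinset, sg n := by
  simp only [Psi, PowerSeries.coeff_mk]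
  rw [finsum_eq_sum_of_support_subset (s := (fiber_finite ha N).toFinset)]
  · refine Finset.sum_congr rfl fun n hn => ?_
    have : E a n = N := by simpa using hn
    rw [if_pos]
    rw [← E_cast ha, this]
  · intro n hn
    have h : expo a n = (N : ℤ) := by
      by_contra h
      exact hn (if_neg h)
    simp only [Set.Finite.coe_toFinset, Set.mem_preimage, Set.mem_singleton_iff]
    have := E_cast ha n
    rw [h] at this
    exact_mod_cast this

theorem hasSum_Psi {a : ℕ} (ha : 1 ≤ a) {x : ℝ} (h0 : 0 ≤ x) (h1 : x < 1) :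
    HasSum (fun N : ℕ => ((PowerSeries.coeff N (Psi a) : ℤ) : ℝ) * x ^ N) (F a x) := by
  have h := (summable_term ha h0 h1).hasSum.tsum_fiberwise (E a)
  have e : (fun N : ℕ => ((PowerSeries.coeff N (Psi a) : ℤ) : ℝ) * x ^ N) =
      fun N => ∑' b : (E a ⁻¹' {N} : Set ℤ), term a x b := by
    funext N
    rw [coeff_Psi ha, tsum_subtype (E a ⁻¹' {N}) (term a x),
      tsum_eq_sum (s := (fiber_finite ha N).toFinset)]
    · push_cast
      rw [Finset.sum_mul]
      refine Finset.sum_congr rfl fun n hn => ?_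
      have hn' : n ∈ (E a ⁻¹' {N} : Set ℤ) := by simpa using hn
      rw [Set.indicator_of_mem hn', term, show E a n = N from hn']
    · intro n hn
      apply Set.indicator_of_notMem
      simpa using hn
  rw [e]
  exact h

theorem F_zero {a : ℕ} (ha : 1 ≤ a) : F a 0 = 1 := by
  unfold F
  rw [tsum_eq_single 0]
  · simp [term, E, expo, sg]
  · intro n hn
    have : E a n ≠ 0 := by
      have := natAbs_le_E ha n
      have : 0 < n.natAbs := Int.natAbs_pos.mpr hn
      omega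
    simp [term, this]

theorem continuousOn_F {a : ℕ} (ha : 1 ≤ a) {y : ℝ} (hy : y < 1) :
    ContinuousOn (F a) (Set.Icc 0 y) := by
  rcases lt_or_ge y 0 with h | h
  · rw [Set.Icc_eq_empty (not_le.mpr h)]
    exact continuousOn_empty _
  · exact continuousOn_tsum (u := fun n : ℤ => y ^ n.natAbs)
      (fun n => by unfold term; fun_prop) (summable_geo h hy)
      (fun n x hx => norm_term_le ha hx.1 hx.2 hy n)

/-! ### The value at the point `x` with `x ^ a = 3 / 5` is negative -/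

theorem expo_neg (a : ℕ) (k : ℕ) :
    expo a (-((k : ℤ) + 1)) = expo a k + (2 * k + 1) := by
  have h1 := two_tri (k : ℤ)
  have h2 := two_tri' (k : ℤ)
  have h3 := two_tri (-((k : ℤ) + 1))
  have h4 := two_tri' (-((k : ℤ) + 1))
  have e1 : (-((k : ℤ) + 1)) * (-((k : ℤ) + 1) + 1) / 2 = (k : ℤ) * (k + 1) / 2 := by
    congr 1; ring
  unfold expo
  rw [e1]
  have : 2 * ((-((k : ℤ) + 1)) * (-((k : ℤ) + 1) - 1) / 2) =
      2 * ((k : ℤ) * (k - 1) / 2 + (2 * k + 1)) := by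
    rw [h4, mul_add, h2]; ring
  linarith

theorem E_neg {a : ℕ} (ha : 1 ≤ a) (k : ℕ) :
    E a (-((k : ℤ) + 1)) = E a k + (2 * k + 1) := by
  have h1 := E_cast ha (-((k : ℤ) + 1))
  have h2 := E_cast ha (k : ℤ)
  have h3 := expo_neg a k
  omega

theorem sg_neg (k : ℕ) : sg (-((k : ℤ) + 1)) = - sg k := by
  have e1 : (-((k : ℤ) + 1)) * (-((k : ℤ) + 1) + 1) / 2 = (k : ℤ) * (k + 1) / 2 := by
    congr 1; ring
  unfold sg
  rw [e1, if_neg (by omega), if_pos (by omega)]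
  ring

/-- the `k`-th pair of terms -/
theorem term_pair {a : ℕ} (ha : 1 ≤ a) (x : ℝ) (k : ℕ) :
    term a x (k : ℤ) + term a x (-((k : ℤ) + 1)) =
      (sg k : ℝ) * x ^ E a k * (1 - x ^ (2 * k + 1)) := by
  unfold term
  rw [E_neg ha, sg_neg, pow_add]
  push_cast
  ring

theorem tri_le_E {a : ℕ} (ha : 1 ≤ a) (k : ℕ) : a * (k * (k + 1) / 2) ≤ E a k := by
  have h2 := E_cast ha (k : ℤ)
  have h3 : 0 ≤ (k : ℤ) * (k - 1) / 2 := by
    have := two_tri' (k : ℤ)
    have h : 0 ≤ (k : ℤ) * (k - 1) := by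
      rcases k with _ | k
      · simp
      · push_cast
        have : (0 : ℤ) ≤ k := Int.natCast_nonneg k
        nlinarith
    omega
  unfold expo at h2
  have : ((a * (k * (k + 1) / 2) : ℕ) : ℤ) ≤ (E a k : ℤ) := by
    rw [h2]
    push_cast
    linarith
  exact_mod_cast this

theorem F_eq {a : ℕ} (ha : 1 ≤ a) {x : ℝ} (h0 : 0 ≤ x) (h1 : x < 1) :
    HasSum (fun k : ℕ => (sg k : ℝ) * x ^ E a k * (1 - x ^ (2 * k + 1))) (F a x) := by
  have hs := summable_term ha h0 h1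
  have s1 : Summable fun k : ℕ => term a x (k : ℤ) :=
    hs.comp_injective Nat.cast_injective
  have s2 : Summable fun k : ℕ => term a x (-((k : ℤ) + 1)) :=
    hs.comp_injective (i := fun k : ℕ => -((k : ℤ) + 1)) (fun i j h => by simpa using h)
  have h := HasSum.of_nat_of_neg_add_one s1.hasSum s2.hasSum
  have hF : F a x = (∑' k : ℕ, term a x (k : ℤ)) + ∑' k : ℕ, term a x (-((k : ℤ) + 1)) :=
    h.tsum_eq
  rw [hF]
  have h' := s1.hasSum.add s2.hasSum
  have e : (fun k : ℕ => (sg k : ℝ) * x ^ E a k * (1 - x ^ (2 * k + 1))) =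
      fun k : ℕ => term a x (k : ℤ) + term a x (-((k : ℤ) + 1)) :=
    funext fun k => (term_pair ha x k).symm
  rw [e]
  exact h'

theorem abs_pair_le {a : ℕ} (ha : 1 ≤ a) {x : ℝ} (h0 : 0 < x) (h1 : x < 1) (hx : x ^ a = 3 / 5)
    (k : ℕ) :
    |(sg ((k + 3 : ℕ) : ℤ) : ℝ) * x ^ E a ((k + 3 : ℕ) : ℤ) * (1 - x ^ (2 * (k + 3) + 1))| ≤
      (1 - x) * (7 * (3 / 5) ^ 6 * (9 / 7 * (3 / 5) ^ 4) ^ k) := by
  rw [abs_mul, abs_mul, abs_sg, one_mul, abs_of_nonneg (pow_nonneg h0.le _)]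
  have b1 : x ^ (2 * (k + 3) + 1) ≤ 1 := pow_le_one₀ h0.le h1.le
  rw [abs_of_nonneg (by linarith)]
  have b2 : 1 - x ^ (2 * (k + 3) + 1) ≤ (2 * (k + 3) + 1 : ℕ) * (1 - x) := by
    have := one_add_mul_le_pow (a := x - 1) (by linarith) (2 * (k + 3) + 1)
    have e : 1 + (x - 1) = x := by ring
    rw [e] at this
    linarith
  have b3 : x ^ E a ((k + 3 : ℕ) : ℤ) ≤ (3 / 5) ^ (6 + 4 * k) := by
    have t1 := tri_le_E ha (k + 3)
    have t2 : 6 + 4 * k ≤ (k + 3) * (k + 3 + 1) / 2 := by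
      rw [Nat.le_div_iff_mul_le (by norm_num)]
      have : k ≤ k * k := Nat.le_mul_self k
      nlinarith
    calc x ^ E a ((k + 3 : ℕ) : ℤ) ≤ x ^ (a * ((k + 3) * (k + 3 + 1) / 2)) :=
          pow_le_pow_of_le_one h0.le h1.le t1
      _ = (3 / 5) ^ ((k + 3) * (k + 3 + 1) / 2) := by rw [pow_mul, hx]
      _ ≤ (3 / 5) ^ (6 + 4 * k) := pow_le_pow_of_le_one (by norm_num) (by norm_num) t2
  have b4 : ((2 * (k + 3) + 1 : ℕ) : ℝ) ≤ 7 * (9 / 7) ^ k := by
    have := one_add_mul_le_pow (a := (2 / 7 : ℝ)) (by norm_num) k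
    have e : (1 + 2 / 7 : ℝ) = 9 / 7 := by norm_num
    rw [e] at this
    push_cast
    linarith
  have hx1 : 0 ≤ 1 - x := by linarith
  calc x ^ E a ((k + 3 : ℕ) : ℤ) * (1 - x ^ (2 * (k + 3) + 1))
      ≤ (3 / 5) ^ (6 + 4 * k) * ((2 * (k + 3) + 1 : ℕ) * (1 - x)) :=
        mul_le_mul b3 b2 (by linarith) (by positivity)
    _ ≤ (3 / 5) ^ (6 + 4 * k) * ((7 * (9 / 7) ^ k) * (1 - x)) := by
        gcongr
    _ = (1 - x) * (7 * (3 / 5) ^ 6 * (9 / 7 * (3 / 5) ^ 4) ^ k) := by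
        rw [pow_add, pow_mul, mul_pow]; ring

theorem F_neg {a : ℕ} (ha : 1 ≤ a) {x : ℝ} (h0 : 0 < x) (h1 : x < 1) (hx : x ^ a = 3 / 5) :
    F a x < 0 := by
  have hF := F_eq ha h0.le h1
  have hx35 : 3 / 5 ≤ x := by
    rw [← hx]
    calc x ^ a ≤ x ^ 1 := pow_le_pow_of_le_one h0.le h1.le ha
      _ = x := pow_one x
  have hx1 : 0 < 1 - x := by linarith
  set g : ℕ → ℝ := fun k => (sg k : ℝ) * x ^ E a k * (1 - x ^ (2 * k + 1)) with hg
  have hsum : F a x = g 0 + g 1 + g 2 + ∑' k, g (k + 3) := by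
    rw [← hF.tsum_eq, ← hF.summable.sum_add_tsum_nat_add 3]
    simp [Finset.sum_range_succ]
  have htail : ∑' k, g (k + 3) ≤ (1 - x) * (7 * (3 / 5) ^ 6 * (1 - 9 / 7 * (3 / 5) ^ 4)⁻¹) := by
    have hgeo : HasSum (fun k : ℕ => (1 - x) * (7 * (3 / 5) ^ 6 * (9 / 7 * (3 / 5) ^ 4) ^ k))
        ((1 - x) * (7 * (3 / 5 : ℝ) ^ 6 * (1 - 9 / 7 * (3 / 5) ^ 4)⁻¹)) :=
      ((hasSum_geometric_of_lt_one (by norm_num) (by norm_num)).mul_left _).mul_left _
    have hs : Summable fun k => g (k + 3) := (summable_nat_add_iff 3).mpr hF.summable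
    rw [← hgeo.tsum_eq]
    refine hs.tsum_le_tsum (fun k => ?_) hgeo.summable
    exact (le_abs_self _).trans (abs_pair_le ha h0 h1 hx k)
  have g0 : g 0 = (1 - x) := by
    simp [hg, sg, E, expo]
  have g1 : g 1 = (1 - x) * (-(3 / 5) * (1 + x + x ^ 2)) := by
    have e : E a 1 = a := by simp [E, expo]
    have e2 : sg 1 = -1 := by simp [sg]
    simp only [hg, Nat.cast_one, e, e2, hx]
    push_cast
    ring
  have g2 : g 2 = (1 - x) * (-((3 / 5) ^ 3 * x) * (1 + x + x ^ 2 + x ^ 3 + x ^ 4)) := by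
    have e : E a 2 = a * 3 + 1 := by
      simp [E, expo]
      omega
    have e2 : sg 2 = -1 := by simp [sg]; rfl
    simp only [hg, Nat.cast_ofNat, e, e2, pow_add, pow_mul, hx]
    push_cast
    ring
  rw [hsum, g0, g1, g2]
  have key : (1 : ℝ) + (-(3 / 5) * (1 + x + x ^ 2)) +
      (-((3 / 5) ^ 3 * x) * (1 + x + x ^ 2 + x ^ 3 + x ^ 4)) +
      (7 * (3 / 5) ^ 6 * (1 - 9 / 7 * (3 / 5) ^ 4)⁻¹) < 0 := by
    have p2 : (3 / 5 : ℝ) ^ 2 ≤ x ^ 2 := pow_le_pow_left₀ (by norm_num) hx35 2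
    have p3 : (3 / 5 : ℝ) ^ 3 ≤ x ^ 3 := pow_le_pow_left₀ (by norm_num) hx35 3
    have p4 : (3 / 5 : ℝ) ^ 4 ≤ x ^ 4 := pow_le_pow_left₀ (by norm_num) hx35 4
    have p5 : (3 / 5 : ℝ) ^ 5 ≤ x ^ 5 := pow_le_pow_left₀ (by norm_num) hx35 5
    have q : (1 - 9 / 7 * (3 / 5 : ℝ) ^ 4)⁻¹ ≤ 12 / 10 := by
      rw [inv_le_comm₀ (by norm_num) (by norm_num)]
      norm_num
    nlinarith
  nlinarith

theorem constantCoeff_Psi {a : ℕ} (ha : 1 ≤ a) : PowerSeries.constantCoeff (Psi a) = 1 := by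
  rw [← PowerSeries.coeff_zero_eq_constantCoeff_apply, coeff_Psi ha]
  have : (fiber_finite ha 0).toFinset = {0} := by
    ext n
    simp only [Set.Finite.mem_toFinset, Set.mem_preimage, Set.mem_singleton_iff,
      Finset.mem_singleton]
    constructor
    · intro h
      have := natAbs_le_E ha n
      rw [h] at this
      omega
    · rintro rfl
      simp [E, expo]
  rw [this, Finset.sum_singleton]
  simp [sg]

theorem Psi_mul {a : ℕ} (ha : 1 ≤ a) : Psi a * PowerSeries.invOfUnit (Psi a) 1 = 1 :=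
  PowerSeries.mul_invOfUnit _ _ (by rw [constantCoeff_Psi ha]; rfl)

/-- If the coefficients do not grow exponentially, `Ψ(-x^a, x)` has no zero in `[0, 1)`. -/
theorem F_ne_zero {a : ℕ} (ha : 1 ≤ a)
    (hc : ∀ β : ℝ, 1 < β → ∀ᶠ n in atTop, |(c a n : ℝ)| < β ^ n) {x : ℝ} (h0 : 0 ≤ x)
    (h1 : x < 1) : F a x ≠ 0 := by
  have hp := hasSum_Psi ha h0 h1
  have sc : Summable fun n : ℕ => ‖(c a n : ℝ) * x ^ n‖ := by
    rcases h0.eq_or_lt with rfl | h0'
    · refine summable_of_ne_finset_zero (s := {0}) ?_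
      intro n hn
      have : n ≠ 0 := by simpa using hn
      simp [this]
    · have hβ : 1 < (1 + 1 / x) / 2 := by
        have : 1 < 1 / x := by rw [lt_div_iff₀ h0']; linarith
        linarith
      have h2 : Summable fun n : ℕ => ((1 + x) / 2) ^ n :=
        summable_geometric_of_lt_one (by positivity) (by linarith)
      refine Summable.of_norm_bounded_eventually_nat h2 ?_
      filter_upwards [hc _ hβ] with n hn
      rw [norm_norm, norm_mul, norm_pow, Real.norm_eq_abs, Real.norm_eq_abs, abs_of_pos h0']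
      have : ((1 + x) / 2) ^ n = ((1 + 1 / x) / 2) ^ n * x ^ n := by
        rw [← mul_pow]
        congr 1
        field_simp
        ring
      rw [this]
      exact mul_le_mul_of_nonneg_right hn.le (by positivity)
  have sp : Summable fun n : ℕ => ‖((PowerSeries.coeff n (Psi a) : ℤ) : ℝ) * x ^ n‖ :=
    hp.summable.norm
  have hprod := tsum_mul_tsum_eq_tsum_sum_antidiagonal_of_summable_norm sp sc
  have hone : (∑' n : ℕ, ∑ kl ∈ Finset.HasAntidiagonal.antidiagonal n,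
      ((PowerSeries.coeff kl.1 (Psi a) : ℤ) : ℝ) * x ^ kl.1 * ((c a kl.2 : ℝ) * x ^ kl.2)) = 1 := by
    have e : ∀ n : ℕ, (∑ kl ∈ Finset.HasAntidiagonal.antidiagonal n,
      ((PowerSeries.coeff kl.1 (Psi a) : ℤ) : ℝ) * x ^ kl.1 * ((c a kl.2 : ℝ) * x ^ kl.2)) =
        if n = 0 then 1 else 0 := by
      intro n
      have h := congrArg (PowerSeries.coeff n) (Psi_mul ha)
      rw [PowerSeries.coeff_mul, PowerSeries.coeff_one] at h
      have h' : (∑ kl ∈ Finset.HasAntidiagonal.antidiagonal n, ((PowerSeries.coeff kl.1 (Psi a) : ℤ) : ℝ) *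
          (c a kl.2 : ℝ)) = if n = 0 then 1 else 0 := by
        have := congrArg (fun z : ℤ => (z : ℝ)) h
        push_cast at this
        exact this
      have h2 : (∑ kl ∈ Finset.HasAntidiagonal.antidiagonal n,
        ((PowerSeries.coeff kl.1 (Psi a) : ℤ) : ℝ) * x ^ kl.1 * ((c a kl.2 : ℝ) * x ^ kl.2)) =
          (∑ kl ∈ Finset.HasAntidiagonal.antidiagonal n, ((PowerSeries.coeff kl.1 (Psi a) : ℤ) : ℝ) *
          (c a kl.2 : ℝ)) * x ^ n := by
        rw [Finset.sum_mul]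
        refine Finset.sum_congr rfl fun kl hkl => ?_
        rw [← Finset.HasAntidiagonal.mem_antidiagonal.mp hkl, pow_add]
        ring
      rw [h2, h']
      split_ifs with hn
      · simp [hn]
      · simp
    simp_rw [e]
    exact tsum_ite_eq 0 _
  rw [hone, hp.tsum_eq] at hprod
  intro h
  rw [h, zero_mul] at hprod
  exact zero_ne_one hprod

/-- For every integer `a ≥ 1` the coefficients `c_a(n)` of `1 / Ψ(-q^a, q)` grow exponentially. -/
theorem result (a : ℕ) (ha : 1 ≤ a) :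
    Psi a * PowerSeries.mk (c a) = 1 ∧
    ∃ β : ℝ, 1 < β ∧ ∃ᶠ n in atTop, β ^ n ≤ |(c a n : ℝ)| := by
  refine ⟨?_, ?_⟩
  · have : PowerSeries.mk (c a) = PowerSeries.invOfUnit (Psi a) 1 := by
      ext n
      simp [c]
    rw [this]
    exact Psi_mul ha
  · by_contra hcon
    push Not at hcon
    have hc : ∀ β : ℝ, 1 < β → ∀ᶠ n in atTop, |(c a n : ℝ)| < β ^ n := by
      intro β hβ
      have := hcon β hβ
      simpa [Filter.not_frequently] using this
    -- the point x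
    set x : ℝ := (3 / 5 : ℝ) ^ (1 / (a : ℝ)) with hx
    have ha' : (0 : ℝ) < a := by exact_mod_cast ha
    have x0 : 0 < x := Real.rpow_pos_of_pos (by norm_num) _
    have x1 : x < 1 := Real.rpow_lt_one (by norm_num) (by norm_num) (by positivity)
    have xa : x ^ a = 3 / 5 := by
      rw [hx, ← Real.rpow_natCast, ← Real.rpow_mul (by norm_num)]
      field_simp
      norm_num
    have hneg := F_neg ha x0 x1 xa
    have hpos := F_zero ha
    have hcont := continuousOn_F ha x1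
    have himg := intermediate_value_Icc' x0.le hcont
    have h0mem : (0 : ℝ) ∈ Set.Icc (F a x) (F a 0) := ⟨hneg.le, by rw [hpos]; norm_num⟩
    obtain ⟨z, hz, hz0⟩ := himg h0mem
    exact F_ne_zero ha hc hz.1 (hz.2.trans_lt x1) hz0

end Pool.Agent.Results.MP_0ebc21_nt.ExponentialGrowth
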